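import Pool.Agent.Results.MP_838239_al.ClassFunctions

/-!
MP_6acff7_al, `G = Alt(n)`.  Q1 asks for `diam ≤ C log |G|`.  Here: distances of the right order
from the identity to sets which are invariant under conjugation.

For every `δ` in `(0, 1]` there is `m₀` such that for every `m ≥ m₀` there is `C` with: if `E_n` is any
subset of `Alt(n)` which is invariant under conjugation and has at least `exp (- n ^ (1 - δ)) |Alt(n)|`
elements, then with high probability some element of `E_n` is a product of at most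
`C (log (|Alt(n)| / |E_n|) + log n)` of the random elements `x_1, …, x_m` and their inverses.
As there are at most `(2 m) ^ t` products of length `t`, this is the order of magnitude which one
expects from `(2 m) ^ t` independent random elements.

Proof.  By the decay of the lazy walk on functions which are invariant under conjugation
(`MP_838239_al.ClassFunctions`), applied to `x_2, …, x_m`, from all but a small proportion of the
elements `g` one comes into `E_n` by a short word in these; `x_1` is not exceptional, almost surely.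
-/

namespace Pool.Agent.Results.MP_6acff7_al.DistanceToNormalSets
open Finset Filter Topology
open Pool.Agent.Results.MP_838239_al.ClassFunctions

noncomputable section

/-- some element of `E` is a product of at most `D` factors `x_i`, `x_i⁻¹` -/
def Near {n m : ℕ} (D : ℝ) (x : Fin m → alternatingGroup (Fin n))
    (E : Finset (alternatingGroup (Fin n))) : Prop :=
  ∃ w : List (alternatingGroup (Fin n)), (w.length : ℝ) ≤ D ∧
    (∀ y ∈ w, ∃ i, y = x i ∨ y = (x i)⁻¹) ∧ w.prod ∈ E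

lemma num (δ : ℝ) (hδ : 0 < δ) (hδ1 : δ ≤ 1) (ε : ℝ) (hε : 0 < ε) (hε1 : ε ≤ 1) (e : ℝ)
    (he : 0 < e) : ∀ᶠ n : ℕ in atTop, ∀ D : ℝ, 1 ≤ D → D ≤ Real.exp ((n : ℝ) ^ (1 - δ)) →
      ((1 - ε / 2) ^ ⌊(4 / ε) * (Real.log D + Real.log n)⌋₊ +
        Real.exp (-(n : ℝ) ^ (1 - δ / 2))) * D ≤ e := by
  have h1 : ∀ᶠ n : ℕ in atTop, (2 : ℝ) ≤ (n : ℝ) ^ (δ / 2) :=
    ((tendsto_rpow_atTop (by linarith : 0 < δ / 2)).comp
      tendsto_natCast_atTop_atTop).eventually_ge_atTop 2
  have h2 : ∀ᶠ n : ℕ in atTop, Real.exp (-((n : ℝ) ^ (1 / 2 : ℝ) / 2)) ≤ e / 2 := by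
    have h3 : Tendsto (fun n : ℕ => (n : ℝ) ^ (1 / 2 : ℝ) / 2) atTop atTop :=
      ((tendsto_rpow_atTop (by norm_num : (0 : ℝ) < 1 / 2)).comp
        tendsto_natCast_atTop_atTop).atTop_div_const (by norm_num)
    exact ((Real.tendsto_exp_neg_atTop_nhds_zero.comp h3).eventually
      (ge_mem_nhds (by linarith : (0 : ℝ) < e / 2)))
  have h3 : ∀ᶠ n : ℕ in atTop, Real.exp 1 / (e / 2) ≤ (n : ℝ) :=
    tendsto_natCast_atTop_atTop.eventually_ge_atTop _
  filter_upwards [h1, h2, h3, eventually_ge_atTop 1] with n h1 h2 h3 hn D hD1 hD2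
  have hn1 : (1 : ℝ) ≤ n := by exact_mod_cast hn
  have hn0 : (0 : ℝ) < n := by linarith
  have hD0 : 0 < D := by linarith
  have hlD : 0 ≤ Real.log D := Real.log_nonneg hD1
  have hln : 0 ≤ Real.log n := Real.log_nonneg hn1
  set T : ℝ := (4 / ε) * (Real.log D + Real.log n) with hT
  have hfl : T - 1 ≤ (⌊T⌋₊ : ℝ) := by
    have := Nat.lt_floor_add_one T
    linarith
  have hεT : ε / 2 * T = 2 * (Real.log D + Real.log n) := by
    rw [hT]
    field_simp
    ring
  have ha : (1 - ε / 2) ^ ⌊T⌋₊ * D ≤ e / 2 := by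
    have g1 : (1 - ε / 2) ^ ⌊T⌋₊ ≤ Real.exp (-(ε / 2 * ⌊T⌋₊)) := by
      have g2 : 1 - ε / 2 ≤ Real.exp (-(ε / 2)) := by
        have := Real.add_one_le_exp (-(ε / 2))
        linarith
      calc (1 - ε / 2) ^ ⌊T⌋₊ ≤ Real.exp (-(ε / 2)) ^ ⌊T⌋₊ :=
            pow_le_pow_left₀ (by linarith) g2 _
        _ = Real.exp (-(ε / 2 * ⌊T⌋₊)) := by
            rw [← Real.exp_nat_mul]
            congr 1
            ring
    have g3 : -(ε / 2 * (⌊T⌋₊ : ℝ)) ≤ 1 - 2 * (Real.log D + Real.log n) := by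
      have := mul_le_mul_of_nonneg_left hfl (by linarith : 0 ≤ ε / 2)
      rw [mul_sub, hεT, mul_one] at this
      linarith
    calc (1 - ε / 2) ^ ⌊T⌋₊ * D ≤ Real.exp (1 - 2 * (Real.log D + Real.log n)) *
          Real.exp (Real.log D) := by
            rw [Real.exp_log hD0]
            exact mul_le_mul_of_nonneg_right (g1.trans (Real.exp_le_exp.2 g3)) hD0.le
      _ = Real.exp (1 - Real.log D - 2 * Real.log n) := by
            rw [← Real.exp_add]
            congr 1
            ring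
      _ ≤ Real.exp (1 - Real.log n) := Real.exp_le_exp.2 (by linarith)
      _ = Real.exp 1 / n := by rw [Real.exp_sub, Real.exp_log hn0]
      _ ≤ e / 2 := by
            rw [div_le_iff₀ hn0]
            rw [div_le_iff₀ (by linarith)] at h3
            linarith
  have hb : Real.exp (-(n : ℝ) ^ (1 - δ / 2)) * D ≤ e / 2 := by
    have g1 : (n : ℝ) ^ (1 - δ / 2) = (n : ℝ) ^ (δ / 2) * (n : ℝ) ^ (1 - δ) := by
      rw [← Real.rpow_add hn0]
      congr 1
      ring
    have g2 : (0 : ℝ) ≤ (n : ℝ) ^ (1 - δ) := by positivity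
    have g3 : 2 * (n : ℝ) ^ (1 - δ) ≤ (n : ℝ) ^ (1 - δ / 2) := by
      rw [g1]
      exact mul_le_mul_of_nonneg_right h1 g2
    have g4 : (n : ℝ) ^ (1 / 2 : ℝ) ≤ (n : ℝ) ^ (1 - δ / 2) :=
      Real.rpow_le_rpow_of_exponent_le hn1 (by linarith)
    calc Real.exp (-(n : ℝ) ^ (1 - δ / 2)) * D
        ≤ Real.exp (-(n : ℝ) ^ (1 - δ / 2)) * Real.exp ((n : ℝ) ^ (1 - δ)) := by gcongr
      _ = Real.exp (-(n : ℝ) ^ (1 - δ / 2) + (n : ℝ) ^ (1 - δ)) := by rw [Real.exp_add]
      _ ≤ Real.exp (-((n : ℝ) ^ (1 / 2 : ℝ) / 2)) := Real.exp_le_exp.2 (by linarith)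
      _ ≤ e / 2 := h2
  rw [add_mul]
  linarith

theorem result (δ : ℝ) (hδ : 0 < δ) (hδ1 : δ ≤ 1) : ∃ m₀ : ℕ, ∀ m ≥ m₀, ∃ C : ℝ, 0 < C ∧
    ∀ E : ∀ n : ℕ, Finset (alternatingGroup (Fin n)),
      (∀ n, ∀ h g : alternatingGroup (Fin n), h * g * h⁻¹ ∈ E n ↔ g ∈ E n) →
      (∀ n : ℕ, Real.exp (-(n : ℝ) ^ (1 - δ)) * Fintype.card (alternatingGroup (Fin n)) ≤
        (E n).card) →
      Tendsto (fun n : ℕ => (Nat.card {x : Fin m → alternatingGroup (Fin n) //
        Near (C * (Real.log ((Fintype.card (alternatingGroup (Fin n)) : ℝ) / (E n).card) +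
          Real.log n)) x (E n)} : ℝ) /
        (Fintype.card (alternatingGroup (Fin n)) : ℝ) ^ m) atTop (𝓝 1) := by
  obtain ⟨k₀, hk₀⟩ := Pool.Agent.Results.MP_75608d_al.FewExceptionalEigenvalues.result (δ / 2)
    (by linarith)
  refine ⟨k₀ + 2, fun m hm => ?_⟩
  obtain ⟨k, rfl⟩ : ∃ k, m = k + 1 := ⟨m - 1, by omega⟩
  obtain ⟨εb, hεb, h⟩ := hk₀ k (by omega)
  set ε : ℝ := min εb 1 with hε
  have hε0 : 0 < ε := lt_min hεb one_pos
  have hε1 : ε ≤ 1 := min_le_right _ _
  refine ⟨4 / ε + 2, by positivity, fun E hE1 hE2 => ?_⟩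
  refine RD516.tendsto_of_bad (k := k + 1) (fun n x => Near ((4 / ε + 2) *
    (Real.log ((Fintype.card (alternatingGroup (Fin n)) : ℝ) / (E n).card) + Real.log n)) x (E n))
    fun e he => ?_
  have hmix : ∀ᶠ n : ℕ in atTop, (Nat.card {x : Fin k → RC14.Alt n //
      ¬ ConjMixing (ε / 2) (Real.exp (-(n : ℝ) ^ (1 - δ / 2))) x} : ℝ) ≤
        e / 2 * (Fintype.card (RC14.Alt n) : ℝ) ^ k := by
    filter_upwards [RD516.bad_of_tendsto _ h (e / 2) (by linarith)] with n hn
    refine le_trans ?_ hn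
    exact_mod_cast RC14.card_mono (fun x : Fin k → RC14.Alt n =>
        ¬ ConjMixing (ε / 2) (Real.exp (-(n : ℝ) ^ (1 - δ / 2))) x)
      (fun x => ¬ Pool.Agent.Results.MP_75608d_al.FewExceptionalEigenvalues.FewExceptional εb
        (Real.exp (-(n : ℝ) ^ (1 - δ / 2))) x) (by
        intro x hx hcon
        exact hx (mixing_of (by omega) hε0 hε1 (Real.exp_pos _).le x
          (RD516.irrFew_of (min_le_left _ _) hcon)))
  filter_upwards [hmix, num δ hδ hδ1 ε hε0 hε1 (e / 2) (by linarith), eventually_ge_atTop 3]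
    with n h1 h2 hn
  set A : ℝ := (Fintype.card (RC14.Alt n) : ℝ) with hA
  have hA0 : 0 < A := by
    rw [hA]
    exact_mod_cast Fintype.card_pos
  set S : ℝ := ((E n).card : ℝ) with hS
  have hS1 : Real.exp (-(n : ℝ) ^ (1 - δ)) * A ≤ S := hE2 n
  have hS0 : 0 < S := lt_of_lt_of_le (by positivity) hS1
  have hSA : S ≤ A := by
    rw [hS, hA]
    exact_mod_cast card_le_univ (E n)
  have hD1 : 1 ≤ A / S := (one_le_div hS0).2 hSA
  have hD2 : A / S ≤ Real.exp ((n : ℝ) ^ (1 - δ)) := by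
    rw [div_le_iff₀ hS0]
    have := mul_le_mul_of_nonneg_left hS1 (Real.exp_pos ((n : ℝ) ^ (1 - δ))).le
    rwa [← mul_assoc, ← Real.exp_add, add_neg_cancel, Real.exp_zero, one_mul] at this
  have h3 := h2 (A / S) hD1 hD2
  set t : ℕ := ⌊(4 / ε) * (Real.log (A / S) + Real.log n)⌋₊ with ht
  have hln : 1 ≤ Real.log n := by
    have h3' : (3 : ℝ) ≤ n := by exact_mod_cast hn
    rw [Real.le_log_iff_exp_le (by linarith)]
    linarith [Real.exp_one_lt_d9]
  have hlD : 0 ≤ Real.log (A / S) := Real.log_nonneg hD1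
  have cnt := RD516.count_two (G := RC14.Alt n) k
    (fun y => ConjMixing (ε / 2) (Real.exp (-(n : ℝ) ^ (1 - δ / 2))) y)
    (fun g y => Reaches y t (E n) g) (e / 2 * A) (by positivity) (fun y hy => by
      have g1 := (hy ⊤ t).2 (E n) (fun h _ g => hE1 n h g)
      rw [Subgroup.index_top, Nat.cast_one, one_mul] at g1
      have g2 : (Nat.card {g : RC14.Alt n // ¬ Reaches y t (E n) g} : ℝ) * S ≤
          ((1 - ε / 2) ^ t + Real.exp (-(n : ℝ) ^ (1 - δ / 2))) * A ^ 2 := g1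
      have g3 : ((1 - ε / 2) ^ t + Real.exp (-(n : ℝ) ^ (1 - δ / 2))) * A ≤ e / 2 * S := by
        have g4 := mul_le_mul_of_nonneg_right h3 hS0.le
        rwa [mul_assoc, div_mul_cancel₀ _ hS0.ne'] at g4
      have g5 : ((1 - ε / 2) ^ t + Real.exp (-(n : ℝ) ^ (1 - δ / 2))) * A ^ 2 ≤
          e / 2 * A * S := by
        have := mul_le_mul_of_nonneg_right g3 hA0.le
        nlinarith
      exact le_of_mul_le_mul_right (g2.trans g5) hS0)
  have hmono : (Nat.card {x : Fin (k + 1) → RC14.Alt n // ¬ Near ((4 / ε + 2) *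
      (Real.log (A / S) + Real.log n)) x (E n)} : ℝ) ≤
      Nat.card {x : Fin (k + 1) → RC14.Alt n // ¬ (ConjMixing (ε / 2)
        (Real.exp (-(n : ℝ) ^ (1 - δ / 2))) (Fin.tail x) ∧
          Reaches (Fin.tail x) t (E n) (x 0))} := by
    refine Nat.cast_le.mpr (RC14.card_mono _ _ fun x hx hcon => hx ?_)
    obtain ⟨-, w, hw1, hw2, hw3⟩ := hcon
    refine ⟨x 0 :: w, ?_, ?_, by rw [List.prod_cons]; exact hw3⟩
    · rw [List.length_cons]
      have g1 : (w.length : ℝ) ≤ (4 / ε) * (Real.log (A / S) + Real.log n) := by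
        refine le_trans (by exact_mod_cast hw1) (Nat.floor_le (by positivity))
      push_cast
      nlinarith
    · intro y hy
      rcases List.mem_cons.1 hy with rfl | hy
      · exact ⟨0, Or.inl rfl⟩
      · obtain ⟨i, hi⟩ := hw2 y hy
        exact ⟨i.succ, hi⟩
  refine hmono.trans (cnt.trans ?_)
  have g6 := mul_le_mul_of_nonneg_left h1 hA0.le
  have g7 : A * (e / 2 * A ^ k) + A ^ k * (e / 2 * A) = e * A ^ (k + 1) := by ring
  change A * (Nat.card {y : Fin k → RC14.Alt n // ¬ ConjMixing (ε / 2)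
    (Real.exp (-(n : ℝ) ^ (1 - δ / 2))) y} : ℝ) + A ^ k * (e / 2 * A) ≤ e * A ^ (k + 1)
  linarith

end

end Pool.Agent.Results.MP_6acff7_al.DistanceToNormalSets
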